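import Pool.Agent.Lib.MP_bea9c1_pr.Main

/-!
# MP_bea9c1_pr: the coupling of `G_{n,1/2}` and `G_{n+1,1/2}`
-/

set_option autoImplicit false

namespace ChiVar

/-- The graph induced on the first `n` vertices. -/
def rst {n : ℕ} (G : SimpleGraph (Fin (n + 1))) : SimpleGraph (Fin n) := G.comap Fin.castSucc

/-- The graph with a new vertex joined to the vertices of `S`. -/
def ext {n : ℕ} (H : SimpleGraph (Fin n)) (S : Finset (Fin n)) : SimpleGraph (Fin (n + 1)) where
  Adj x y := Fin.lastCases (motive := fun _ => Prop)
    (Fin.lastCases (motive := fun _ => Prop) False (fun b => b ∈ S) y)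
    (fun a => Fin.lastCases (motive := fun _ => Prop) (a ∈ S) (fun b => H.Adj a b) y) x
  symm := by
    constructor
    intro x y
    refine Fin.lastCases ?_ (fun a => ?_) x <;> refine Fin.lastCases ?_ (fun b => ?_) y <;>
      simp [H.adj_comm]
  loopless := by
    constructor
    intro x
    refine Fin.lastCases ?_ (fun a => ?_) x <;> simp

theorem ext_cc {n : ℕ} (H : SimpleGraph (Fin n)) (S : Finset (Fin n)) (a b : Fin n) :
    (ext H S).Adj a.castSucc b.castSucc ↔ H.Adj a b := by
  simp [ext]

theorem ext_cl {n : ℕ} (H : SimpleGraph (Fin n)) (S : Finset (Fin n)) (a : Fin n) :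
    (ext H S).Adj a.castSucc (Fin.last n) ↔ a ∈ S := by
  simp [ext]

open Classical in
/-- A graph on `n + 1` vertices is a graph on `n` vertices and a set of neighbours. -/
noncomputable def spl (n : ℕ) :
    SimpleGraph (Fin n) × Finset (Fin n) ≃ SimpleGraph (Fin (n + 1)) where
  toFun p := ext p.1 p.2
  invFun G := (rst G, Finset.univ.filter fun a => G.Adj a.castSucc (Fin.last n))
  left_inv := by
    rintro ⟨H, S⟩
    refine Prod.ext ?_ ?_
    · ext a b
      exact ext_cc H S a b
    · ext a
      simp only [Finset.mem_filter, Finset.mem_univ, true_and]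
      exact ext_cl H S a
  right_inv := by
    intro G
    ext x y
    refine Fin.lastCases ?_ (fun a => ?_) x <;> refine Fin.lastCases ?_ (fun b => ?_) y
    · simp
    · rw [SimpleGraph.adj_comm, ext_cl, G.adj_comm]
      simp
    · rw [ext_cl]
      simp
    · rw [ext_cc]
      rfl

theorem rst_ext {n : ℕ} (H : SimpleGraph (Fin n)) (S : Finset (Fin n)) : rst (ext H S) = H := by
  ext a b
  exact ext_cc H S a b

theorem E_rst {n : ℕ} (f : SimpleGraph (Fin n) → ℝ) :
    E (n + 1) (fun G => f (rst G)) = E n f := by
  have h1 : ∑ G : SimpleGraph (Fin (n + 1)), f (rst G) =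
      Fintype.card (Finset (Fin n)) * ∑ H, f H := by
    rw [← (spl n).sum_comp, Fintype.sum_prod_type, Finset.mul_sum]
    refine Finset.sum_congr rfl fun H _ => ?_
    have h2 : ∀ S : Finset (Fin n), f (rst ((spl n) (H, S))) = f H := by
      intro S
      exact congrArg f (rst_ext H S)
    rw [Finset.sum_congr rfl fun S _ => h2 S, Finset.sum_const, nsmul_eq_mul, Finset.card_univ]
  have h3 : (Fintype.card (SimpleGraph (Fin (n + 1))) : ℝ) =
      Fintype.card (Finset (Fin n)) * Fintype.card (SimpleGraph (Fin n)) := by
    rw [← Fintype.card_congr (spl n), Fintype.card_prod]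
    push_cast
    ring
  have h4 : (Fintype.card (Finset (Fin n)) : ℝ) ≠ 0 := by
    exact_mod_cast Fintype.card_ne_zero
  unfold E
  rw [h1, h3, mul_div_mul_left _ _ h4]

theorem col (n : ℕ) (G : SimpleGraph (Fin n)) : G.Colorable G.chromaticNumber.toNat := by
  have h := SimpleGraph.colorable_of_fintype G
  exact SimpleGraph.colorable_chromaticNumber h

theorem Y_le {n k : ℕ} {G : SimpleGraph (Fin n)} (h : G.Colorable k) : Y n G ≤ k := by
  unfold Y
  exact_mod_cast ENat.toNat_le_of_le_natCast h.chromaticNumber_le

theorem Y_rst_le {n : ℕ} (G : SimpleGraph (Fin (n + 1))) : Y n (rst G) ≤ Y (n + 1) G := by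
  refine Y_le ?_
  exact (col (n + 1) G).of_hom ⟨Fin.castSucc, fun h => h⟩

theorem Y_le_rst {n : ℕ} (G : SimpleGraph (Fin (n + 1))) : Y (n + 1) G ≤ Y n (rst G) + 1 := by
  obtain ⟨c⟩ := col n (rst G)
  have h : G.Colorable ((rst G).chromaticNumber.toNat + 1) := by
    have h1 : G.Coloring (Option (Fin (rst G).chromaticNumber.toNat)) :=
      SimpleGraph.Coloring.mk (fun x => Fin.lastCases (motive := fun _ => Option _) none
        (fun a => some (c a)) x) (by
          intro x y
          refine Fin.lastCases ?_ (fun a => ?_) x <;> refine Fin.lastCases ?_ (fun b => ?_) y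
          · simp
          · simp
          · simp
          · intro hab
            simp only [Fin.lastCases_castSucc, ne_eq, Option.some.injEq]
            exact c.valid hab)
    have h2 := h1.colorable
    rwa [Fintype.card_option, Fintype.card_fin] at h2
  have h3 := Y_le h
  unfold Y at h3 ⊢
  exact_mod_cast h3

end ChiVar
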