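import Pool.Agent.Lib.MP_bea9c1_prW.Coup

/-!
# MP_bea9c1_pr: windows
-/

set_option autoImplicit false

namespace ChiVar

theorem E_add {n : ℕ} (f g : SimpleGraph (Fin n) → ℝ) :
    E n (fun G => f G + g G) = E n f + E n g := by
  unfold E
  rw [Finset.sum_add_distrib, add_div]

theorem E_const {n : ℕ} (c : ℝ) : E n (fun _ => c) = c := by
  have h := E_mul (n := n) (fun _ => (1 : ℝ)) c
  rw [E_one, mul_one] at h
  exact h

/-- Cauchy and Schwarz. -/
theorem E_cs {n : ℕ} (f g : SimpleGraph (Fin n) → ℝ) :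
    E n (fun G => f G * g G) ≤ √(E n fun G => f G ^ 2) * √(E n fun G => g G ^ 2) := by
  have hc := card_pos n
  unfold E
  rw [Real.sqrt_div' _ hc.le, Real.sqrt_div' _ hc.le, div_mul_div_comm, Real.mul_self_sqrt hc.le]
  exact div_le_div_of_nonneg_right (Real.sum_mul_le_sqrt_mul_sqrt _ _ _) hc.le

theorem E_mink {n : ℕ} (f g : SimpleGraph (Fin n) → ℝ) :
    √(E n fun G => (f G + g G) ^ 2) ≤ √(E n fun G => f G ^ 2) + √(E n fun G => g G ^ 2) := by
  refine Real.sqrt_le_iff.2 ⟨by positivity, ?_⟩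
  have h1 : (E n fun G => (f G + g G) ^ 2) =
      (E n fun G => f G ^ 2) + (E n fun G => g G ^ 2) + 2 * E n (fun G => f G * g G) := by
    rw [← E_mul, ← E_add, ← E_add]
    congr 1
    funext G
    ring
  have h2 := E_cs f g
  have h3 := Real.sq_sqrt (E_nonneg (n := n) fun G => sq_nonneg (f G))
  have h4 := Real.sq_sqrt (E_nonneg (n := n) fun G => sq_nonneg (g G))
  nlinarith

theorem E_neg_sq {n : ℕ} (f : SimpleGraph (Fin n) → ℝ) :
    (E n fun G => (-f G) ^ 2) = E n fun G => f G ^ 2 := by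
  congr 1
  funext G
  ring

/-- The increase of the expectation. -/
theorem inc_bounds (n : ℕ) : 0 ≤ E (n + 1) (Y (n + 1)) - E n (Y n) ∧
    E (n + 1) (Y (n + 1)) - E n (Y n) ≤ 1 := by
  have h1 : E n (Y n) ≤ E (n + 1) (Y (n + 1)) := by
    rw [← E_rst]
    exact E_mono Y_rst_le
  have h2 : E (n + 1) (Y (n + 1)) ≤ E n (Y n) + 1 := by
    have h3 : E n (Y n) + 1 = E (n + 1) (fun G => Y n (rst G) + 1) := by
      rw [E_add (fun G => Y n (rst G)) (fun _ => (1 : ℝ)), E_rst, E_one]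
    rw [h3]
    exact E_mono Y_le_rst
  constructor <;> linarith

theorem sd_diff (n : ℕ) : |sd (n + 1) - sd n| ≤
    √((E (n + 1) (Y (n + 1)) - E n (Y n)) * (1 - (E (n + 1) (Y (n + 1)) - E n (Y n)))) := by
  set μ := E n (Y n) with hμ
  set ν := E (n + 1) (Y (n + 1)) with hν
  have h1 : sd n = √(E (n + 1) fun G => (Y n (rst G) - μ) ^ 2) := by
    unfold sd
    rw [← E_rst]
  have h2 : sd (n + 1) = √(E (n + 1) fun G => (Y (n + 1) G - ν) ^ 2) := rfl
  have h3 : (E (n + 1) fun G => ((Y (n + 1) G - ν) - (Y n (rst G) - μ)) ^ 2) ≤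
      (ν - μ) * (1 - (ν - μ)) := by
    have h4 : (ν - μ) * (1 - (ν - μ)) = E (n + 1) (fun G =>
        ((1 - 2 * (ν - μ)) * Y (n + 1) G + (-(1 - 2 * (ν - μ))) * Y n (rst G)) +
          (ν - μ) ^ 2) := by
      rw [E_add (fun G => (1 - 2 * (ν - μ)) * Y (n + 1) G +
        (-(1 - 2 * (ν - μ))) * Y n (rst G)) (fun _ => (ν - μ) ^ 2), E_const,
        E_add (fun G => (1 - 2 * (ν - μ)) * Y (n + 1) G)
          (fun G => (-(1 - 2 * (ν - μ))) * Y n (rst G)), E_mul (Y (n + 1)),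
        E_mul (fun G => Y n (rst G)), E_rst, ← hμ, ← hν]
      ring
    rw [h4]
    refine E_mono fun G => ?_
    have h5 := Y_rst_le G
    have h6 := Y_le_rst G
    nlinarith [mul_nonneg (sub_nonneg.2 h5) (sub_nonneg.2 h6)]
  have h7 : √(E (n + 1) fun G => ((Y (n + 1) G - ν) - (Y n (rst G) - μ)) ^ 2) ≤
      √((ν - μ) * (1 - (ν - μ))) := Real.sqrt_le_sqrt h3
  have h8 : sd (n + 1) ≤ sd n +
      √(E (n + 1) fun G => ((Y (n + 1) G - ν) - (Y n (rst G) - μ)) ^ 2) := by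
    rw [h1, h2]
    refine le_trans (le_of_eq ?_) (E_mink (fun G => Y n (rst G) - μ)
      (fun G => (Y (n + 1) G - ν) - (Y n (rst G) - μ)))
    congr 2
    funext G
    ring
  have h9 : sd n ≤ sd (n + 1) +
      √(E (n + 1) fun G => ((Y (n + 1) G - ν) - (Y n (rst G) - μ)) ^ 2) := by
    rw [h1, h2, ← E_neg_sq (fun G => (Y (n + 1) G - ν) - (Y n (rst G) - μ))]
    refine le_trans (le_of_eq ?_) (E_mink (fun G => Y (n + 1) G - ν)
      (fun G => -((Y (n + 1) G - ν) - (Y n (rst G) - μ))))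
    congr 2
    funext G
    ring
  rw [abs_le]
  constructor <;> linarith

theorem sd_half (n : ℕ) : |sd (n + 1) - sd n| ≤ 1 / 2 := by
  refine (sd_diff n).trans ?_
  rw [Real.sqrt_le_iff]
  refine ⟨by norm_num, ?_⟩
  nlinarith [sq_nonneg (E (n + 1) (Y (n + 1)) - E n (Y n) - 1 / 2)]

theorem sd_add (n r : ℕ) : |sd (n + r) - sd n| ≤ r / 2 := by
  induction r with
  | zero => simp
  | succ r ih =>
    have h := sd_half (n + r)
    rw [← add_assoc]
    have h1 := abs_sub_le (sd (n + r + 1)) (sd (n + r)) (sd n)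
    push_cast
    linarith

theorem P_up (n : ℕ) (a l : ℝ) : P n a l ≤ P (n + 1) a (l + 1) := by
  classical
  unfold P
  rw [← E_rst]
  refine E_mono fun G => ?_
  have h5 := Y_rst_le G
  have h6 := Y_le_rst G
  by_cases h : a ≤ Y n (rst G) ∧ Y n (rst G) ≤ a + l
  · rw [if_pos h, if_pos ⟨by linarith [h.1], by linarith [h.2]⟩]
  · rw [if_neg h]
    split_ifs <;> norm_num

theorem P_down (n : ℕ) (a l : ℝ) : P (n + 1) a l ≤ P n (a - 1) (l + 1) := by
  classical
  unfold P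
  rw [← E_rst (n := n)]
  refine E_mono fun G => ?_
  have h5 := Y_rst_le G
  have h6 := Y_le_rst G
  by_cases h : a ≤ Y (n + 1) G ∧ Y (n + 1) G ≤ a + l
  · rw [if_pos h, if_pos ⟨by linarith [h.1], by linarith [h.2]⟩]
  · rw [if_neg h]
    split_ifs <;> norm_num

theorem P_up' (n r : ℕ) (a l : ℝ) : P n a l ≤ P (n + r) a (l + r) := by
  induction r with
  | zero => simp
  | succ r ih =>
    refine ih.trans ((P_up (n + r) a (l + r)).trans (le_of_eq ?_))
    push_cast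
    rw [add_assoc l, add_assoc n]

theorem P_down' (n r : ℕ) (a l : ℝ) : P (n + r) a l ≤ P n (a - r) (l + r) := by
  induction r generalizing a l with
  | zero => simp
  | succ r ih =>
    rw [← add_assoc]
    refine (P_down (n + r) a l).trans ((ih (a - 1) (l + 1)).trans (le_of_eq ?_))
    push_cast
    congr 1 <;> ring

/-- Concentration passes to all `n` near `m`. -/
theorem P_near (m n : ℕ) (a l : ℝ) : ∃ b : ℝ, P m a l ≤ P n b (l + |(n : ℝ) - m|) := by
  rcases le_total m n with h | h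
  · obtain ⟨r, rfl⟩ := Nat.exists_eq_add_of_le h
    refine ⟨a, (P_up' m r a l).trans (le_of_eq ?_)⟩
    push_cast
    rw [add_sub_cancel_left, abs_of_nonneg (Nat.cast_nonneg r)]
  · obtain ⟨r, rfl⟩ := Nat.exists_eq_add_of_le h
    refine ⟨a - r, (P_down' n r a l).trans (le_of_eq ?_)⟩
    push_cast
    rw [sub_add_cancel_left, abs_neg, abs_of_nonneg (Nat.cast_nonneg r)]

theorem sd_near (m n : ℕ) : sd m - |(n : ℝ) - m| / 2 ≤ sd n := by
  rcases le_total m n with h | h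
  · obtain ⟨r, rfl⟩ := Nat.exists_eq_add_of_le h
    have h1 := abs_le.1 (sd_add m r)
    push_cast
    rw [add_sub_cancel_left, abs_of_nonneg (Nat.cast_nonneg r)]
    linarith [h1.1]
  · obtain ⟨r, rfl⟩ := Nat.exists_eq_add_of_le h
    have h1 := abs_le.1 (sd_add n r)
    push_cast
    rw [sub_add_cancel_left, abs_neg, abs_of_nonneg (Nat.cast_nonneg r)]
    linarith [h1.2]

theorem win (θ : ℝ) (h0 : 0 ≤ θ) (h2 : θ < 2) : Q1 ↔
    ∀ C : ℝ, 0 < C → ∃ δ : ℝ, 0 < δ ∧ ∃ n₀ : ℕ, ∀ m, n₀ ≤ m → ∃ n : ℕ,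
      |(n : ℝ) - m| ≤ θ * sd m ∧ ∀ a : ℝ, P n a (C * sd n) ≤ 1 - δ := by
  rw [q1_iff]
  constructor
  · intro h C hC
    obtain ⟨δ, hδ, n₀, hn⟩ := h C hC
    refine ⟨δ, hδ, n₀, fun m hm => ⟨m, ?_, hn m hm⟩⟩
    rw [sub_self, abs_zero]
    exact mul_nonneg h0 (sd_nonneg m)
  · intro h C hC
    have h3 : 0 < 1 - θ / 2 := by linarith
    obtain ⟨δ, hδ, n₀, hn⟩ := h ((C + θ) / (1 - θ / 2)) (by positivity)
    refine ⟨δ, hδ, n₀, fun m hm a => ?_⟩
    obtain ⟨n, h4, h5⟩ := hn m hm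
    obtain ⟨b, hb⟩ := P_near m n a (C * sd m)
    refine hb.trans (le_trans (P_mono ?_) (h5 b))
    have h6 := sd_near m n
    have h7 : (1 - θ / 2) * sd m ≤ sd n := by linarith
    rw [div_mul_eq_mul_div, le_div_iff₀ h3]
    have h8 : (C * sd m + |(n : ℝ) - m|) * (1 - θ / 2) ≤ ((C + θ) * sd m) * (1 - θ / 2) := by
      apply mul_le_mul_of_nonneg_right _ h3.le
      linarith
    have h9 : ((C + θ) * sd m) * (1 - θ / 2) = (C + θ) * ((1 - θ / 2) * sd m) := by ring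
    rw [h9] at h8
    exact h8.trans (mul_le_mul_of_nonneg_left h7 (by positivity))

end ChiVar
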